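import Mathlib

set_option autoImplicit false

/-!
# Lovász–Saks–Schrijver ideals of `K_{6,6}` minus a Hamiltonian cycle

`LSS k G d` is the Lovász–Saks–Schrijver ideal of the graph `G` in dimension `d` over the field `k`.
The graph `G₀` is the complete bipartite graph `K_{6,6}` with the edges of a Hamiltonian cycle
removed.  It contains no `K_{a,b}` with `a, b ≥ 1` and `a + b ≥ 6`, but its LSS ideal in dimension
`5 = 6 - 1` is not prime, over any field.
-/

open MvPolynomial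

namespace Pool.Agent.Results.MP_024e1e_ag.HamiltonianComplement

universe u

/-- the Lovász–Saks–Schrijver ideal of `G` in dimension `d` -/
noncomputable def LSS (k : Type u) [Field k] {V : Type} (G : SimpleGraph V) (d : ℕ) :
    Ideal (MvPolynomial (V × Fin d) k) :=
  Ideal.span {f | ∃ i l : V, G.Adj i l ∧ f = ∑ j : Fin d, X (i, j) * X (l, j)}

/-- `K_{6,6}` without the edges of the Hamiltonian cycle formed by the pairs `{i, i'}` and
`{i, (i + 1)'}` -/
def G₀ : SimpleGraph (Fin 6 ⊕ Fin 6) where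
  Adj u v := match u, v with
    | .inl i, .inr l => l ≠ i ∧ l ≠ i + 1
    | .inr l, .inl i => l ≠ i ∧ l ≠ i + 1
    | .inl _, .inl _ => False
    | .inr _, .inr _ => False
  symm := ⟨by
    rintro (i | i) (l | l) h
    · exact h
    · exact h
    · exact h
    · exact h⟩
  loopless := ⟨by
    rintro (i | i) h
    · exact h
    · exact h⟩

section algebra

variable {S : Type*} [CommRing S]

/-- `2 × 2` minors -/
def m2 (x : Fin 6 → Fin 5 → S) (a b : Fin 6) : S := x a 0 * x b 1 - x a 1 * x b 0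

/-- `3 × 3` minors -/
def m3 (y : Fin 6 → Fin 5 → S) (a b c : Fin 6) : S :=
  y a 2 * (y b 3 * y c 4 - y b 4 * y c 3) - y a 3 * (y b 2 * y c 4 - y b 4 * y c 2) +
    y a 4 * (y b 2 * y c 3 - y b 3 * y c 2)

/-- relations between the rows of the first two columns -/
def N1 (x : Fin 6 → Fin 5 → S) (s : Fin 4) : Fin 6 → S :=
  ![m2 x 1 (s.natAdd 2), -m2 x 0 (s.natAdd 2), if s = 0 then m2 x 0 1 else 0,
    if s = 1 then m2 x 0 1 else 0, if s = 2 then m2 x 0 1 else 0, if s = 3 then m2 x 0 1 else 0]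

/-- relations between the rows of the last three columns -/
def N2 (y : Fin 6 → Fin 5 → S) (t : Fin 3) : Fin 6 → S :=
  ![m3 y 1 2 (t.natAdd 3), -m3 y 0 2 (t.natAdd 3), m3 y 0 1 (t.natAdd 3),
    if t = 0 then -m3 y 0 1 2 else 0, if t = 1 then -m3 y 0 1 2 else 0,
    if t = 2 then -m3 y 0 1 2 else 0]

theorem N1_rel (x : Fin 6 → Fin 5 → S) (s : Fin 4) (j : Fin 5) (hj : j = 0 ∨ j = 1) :
    ∑ i, N1 x s i * x i j = 0 := by
  rcases hj with rfl | rfl <;> fin_cases s <;> simp [Fin.sum_univ_six, N1, m2] <;> ring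

theorem N2_rel (y : Fin 6 → Fin 5 → S) (t : Fin 3) (j : Fin 5) (hj : j = 2 ∨ j = 3 ∨ j = 4) :
    ∑ i, N2 y t i * y i j = 0 := by
  rcases hj with rfl | rfl | rfl <;> fin_cases t <;> simp [Fin.sum_univ_six, N2, m3] <;> ring

/-- the key identity -/
theorem key_rel (x y : Fin 6 → Fin 5 → S) (s : Fin 4) (t : Fin 3) :
    ∑ i, ∑ l, N1 x s i * N2 y t l * (∑ j, x i j * y l j) = 0 := by
  have h1 : ∀ i l, N1 x s i * N2 y t l * (∑ j, x i j * y l j) =
      ∑ j, (N1 x s i * x i j) * (N2 y t l * y l j) := by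
    intro i l
    rw [Finset.mul_sum]
    apply Finset.sum_congr rfl
    intro j _
    ring
  have h2 : ∑ i, ∑ l, N1 x s i * N2 y t l * (∑ j, x i j * y l j) =
      ∑ j, (∑ i, N1 x s i * x i j) * (∑ l, N2 y t l * y l j) := by
    simp only [h1, Finset.sum_mul_sum]
    rw [Finset.sum_congr rfl fun i _ => Finset.sum_comm, Finset.sum_comm]
  rw [h2]
  apply Finset.sum_eq_zero
  intro j _
  have hj : (j = 0 ∨ j = 1) ∨ (j = 2 ∨ j = 3 ∨ j = 4) := by fin_cases j <;> simp
  rcases hj with hj | hj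
  · rw [N1_rel x s _ hj, zero_mul]
  · rw [N2_rel y t _ hj, mul_zero]

/-- the first index of the `c`-th edge of the cycle -/
def hi : Fin 12 → Fin 6 := ![0, 1, 2, 3, 4, 5, 0, 1, 2, 3, 4, 5]

/-- the second index of the `c`-th edge of the cycle -/
def hl : Fin 12 → Fin 6 := ![0, 1, 2, 3, 4, 5, 1, 2, 3, 4, 5, 0]

/-- row indices -/
def rs : Fin 12 → Fin 4 := ![0, 0, 0, 1, 1, 1, 2, 2, 2, 3, 3, 3]

/-- row indices -/
def rt : Fin 12 → Fin 3 := ![0, 1, 2, 0, 1, 2, 0, 1, 2, 0, 1, 2]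

/-- the coefficient matrix -/
def Lam (x y : Fin 6 → Fin 5 → S) : Matrix (Fin 12) (Fin 12) S :=
  fun r c => N1 x (rs r) (hi c) * N2 y (rt r) (hl c)

theorem Lam_mulVec (x y : Fin 6 → Fin 5 → S)
    (h : ∀ i l : Fin 6, l ≠ i → l ≠ i + 1 → ∑ j, x i j * y l j = 0) :
    (Lam x y).mulVec (fun c => ∑ j, x (hi c) j * y (hl c) j) = 0 := by
  funext r
  have h1 := key_rel x y (rs r) (rt r)
  have h2 : ∀ i : Fin 6, ∑ l, N1 x (rs r) i * N2 y (rt r) l * (∑ j, x i j * y l j) =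
      N1 x (rs r) i * N2 y (rt r) i * (∑ j, x i j * y i j) +
      N1 x (rs r) i * N2 y (rt r) (i + 1) * (∑ j, x i j * y (i + 1) j) := by
    intro i
    have hne : i ≠ i + 1 := by fin_cases i <;> decide
    rw [← Finset.sum_pair (f := fun l => N1 x (rs r) i * N2 y (rt r) l * (∑ j, x i j * y l j)) hne]
    symm
    apply Finset.sum_subset (Finset.subset_univ _)
    intro l _ hl
    simp only [Finset.mem_insert, Finset.mem_singleton, not_or] at hl
    rw [h i l hl.1 hl.2, mul_zero]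
  simp only [h2] at h1
  rw [Finset.sum_add_distrib, Fin.sum_univ_six, Fin.sum_univ_six] at h1
  rw [Matrix.mulVec, dotProduct, Pi.zero_apply]
  rw [← h1]
  simp only [Lam]
  have e : ∀ f : Fin 12 → S, ∑ c, f c = f 0 + f 1 + f 2 + f 3 + f 4 + f 5 +
      (f 6 + f 7 + f 8 + f 9 + f 10 + f 11) := by
    intro f
    rw [Fin.sum_univ_def]
    simp [List.finRange_succ]
    ring
  rw [e]
  rfl

/-- a rational point of the extra component -/
def xz (S : Type*) [CommRing S] : Fin 6 → Fin 5 → S :=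
  ![![1, 0, 0, 0, 0], ![0, 1, 0, 0, 0], ![0, -1, 0, 0, 0], ![0, 1, 0, 0, 0], ![1, 0, 0, 0, 0],
    ![-1, 0, 0, 0, 0]]

/-- a rational point of the extra component -/
def yz (S : Type*) [CommRing S] : Fin 6 → Fin 5 → S :=
  ![![0, 0, 1, 0, 0], ![0, 0, 0, 1, 0], ![0, 0, 0, 0, 1], ![0, 0, 1, 0, 0], ![0, 0, 0, 1, 0],
    ![0, 0, 0, 0, -1]]

theorem xz_yz (i l : Fin 6) : ∑ j, xz S i j * yz S l j = 0 := by
  fin_cases i <;> fin_cases l <;> simp [xz, yz, Fin.sum_univ_five]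

/-- a rational point of the main component -/
def xp (S : Type*) [CommRing S] : Fin 6 → Fin 5 → S :=
  ![![1, 0, 0, 0, 0], ![0, 1, 0, 0, 0], ![0, 0, 1, 0, 0], ![0, 0, 0, 1, 0], ![0, 0, 0, 0, 1],
    ![-1, -1, -1, -1, -1]]

/-- a rational point of the main component -/
def yp (S : Type*) [CommRing S] : Fin 6 → Fin 5 → S :=
  ![![1, 0, 0, 0, 0], ![-1, 1, 0, 0, 0], ![0, -1, 1, 0, 0], ![0, 0, -1, 1, 0], ![0, 0, 0, -1, 1],
    ![0, 0, 0, 0, -1]]

theorem xp_yp (i l : Fin 6) (h1 : l ≠ i) (h2 : l ≠ i + 1) : ∑ j, xp S i j * yp S l j = 0 := by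
  fin_cases i <;> fin_cases l <;> first | exact absurd rfl h1 | exact absurd rfl h2 |
    simp [xp, yp, Fin.sum_univ_five]

theorem xp_yp_zero : ∑ j, xp S 0 j * yp S 0 j = 1 := by
  simp [xp, yp, Fin.sum_univ_five]

variable {T : Type*} [CommRing T]

theorem map_N1 (φ : S →+* T) (x : Fin 6 → Fin 5 → S) (s : Fin 4) (i : Fin 6) :
    φ (N1 x s i) = N1 (fun i j => φ (x i j)) s i := by
  fin_cases i <;> simp [N1, m2, apply_ite φ]

theorem map_N2 (φ : S →+* T) (x : Fin 6 → Fin 5 → S) (s : Fin 3) (i : Fin 6) :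
    φ (N2 x s i) = N2 (fun i j => φ (x i j)) s i := by
  fin_cases i <;> simp [N2, m3, apply_ite φ]

theorem map_Lam (φ : S →+* T) (x y : Fin 6 → Fin 5 → S) :
    (Lam x y).map φ = Lam (fun i j => φ (x i j)) (fun i j => φ (y i j)) := by
  ext r c
  rw [Matrix.map_apply, Lam, Lam, map_mul, map_N1, map_N2]

end algebra

/-- the inverse of the coefficient matrix at the special point -/
def Om : Matrix (Fin 12) (Fin 12) ℤ :=
  !![0, 0, 0, 0, 0, 0, -1, 0, 0, 0, 0, 0; 0, 1, 0, 0, 0, 0, 0, 0, 0, 0, 0, 0; 0, 0, -1, 0, 0, -1, 0, 0, 0, 0, 0, 0; 0, 0, 0, -1, 0, 0, 0, 0, 0, 0, 0, 0; 0, 0, 0, 0, 0, 0, 0, -1, 0, 0, -1, 0; 0, 0, 0, 0, 0, 0, 0, 0, 0, 0, 0, -1; 0, 0, 0, 0, 0, 0, 0, 0, 0, 0, 1, 0; 0, 0, 0, 0, 0, 1, 0, 0, 0, 0, 0, 0; -1, 0, 0, 0, 0, 0, 0, 0, 0, 0, 0, 0; 0, -1, 0, 0, -1, 0, 0, 0, 0, 0, 0, 0; 0, 0, 0, 0, 0, 0, 0, 0, -1, 0, 0, 0; 0, 0, 0, 0, 0, 0, 1, 0, 0, 1, 0, 0]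

theorem Lam_Om : Lam (xz ℤ) (yz ℤ) * Om = 1 := by decide +kernel

theorem det_ne (k : Type*) [Field k] : (Lam (xz k) (yz k)).det ≠ 0 := by
  have h1 : (Lam (xz ℤ) (yz ℤ)).map (Int.castRingHom k) = Lam (xz k) (yz k) := by
    rw [map_Lam]
    congr 1
    · ext i j
      fin_cases i <;> fin_cases j <;> simp [xz]
    · ext i j
      fin_cases i <;> fin_cases j <;> simp [yz]
  have h2 : Lam (xz k) (yz k) * Om.map (Int.castRingHom k) = 1 := by
    rw [← h1, ← Matrix.map_mul, Lam_Om]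
    exact Matrix.map_one _ (map_zero _) (map_one _)
  exact Matrix.det_ne_zero_of_right_inverse h2

/-- evaluation at a pair of matrices kills the ideal as soon as the equations hold -/
theorem LSS_le_ker {k : Type u} [Field k] (x y : Fin 6 → Fin 5 → k)
    (h : ∀ i l : Fin 6, l ≠ i → l ≠ i + 1 → ∑ j, x i j * y l j = 0) :
    LSS k G₀ 5 ≤ RingHom.ker (eval fun v : (Fin 6 ⊕ Fin 6) × Fin 5 =>
      Sum.elim (fun i => x i v.2) (fun i => y i v.2) v.1) := by
  rw [LSS, Ideal.span_le]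
  rintro _ ⟨i, l, hil, rfl⟩
  rw [SetLike.mem_coe, RingHom.mem_ker, map_sum]
  rcases i with i | i <;> rcases l with l | l
  · exact absurd hil id
  · simp only [map_mul, eval_X, Sum.elim_inl, Sum.elim_inr]
    exact h i l hil.1 hil.2
  · simp only [map_mul, eval_X, Sum.elim_inl, Sum.elim_inr]
    rw [← h l i hil.1 hil.2]
    exact Finset.sum_congr rfl fun j _ => mul_comm _ _
  · exact absurd hil id

theorem not_prime (k : Type u) [Field k] : ¬ (LSS k G₀ 5).IsPrime := by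
  intro hP
  set I := LSS k G₀ 5 with hI
  let x : Fin 6 → Fin 5 → MvPolynomial ((Fin 6 ⊕ Fin 6) × Fin 5) k := fun i j => X (Sum.inl i, j)
  let y : Fin 6 → Fin 5 → MvPolynomial ((Fin 6 ⊕ Fin 6) × Fin 5) k := fun i j => X (Sum.inr i, j)
  let π : MvPolynomial ((Fin 6 ⊕ Fin 6) × Fin 5) k →+* MvPolynomial ((Fin 6 ⊕ Fin 6) × Fin 5) k ⧸ I :=
    Ideal.Quotient.mk I
  have h1 : ∀ i l : Fin 6, l ≠ i → l ≠ i + 1 → ∑ j, π (x i j) * π (y l j) = 0 := by
    intro i l h1 h2
    simp only [← map_mul]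
    rw [← map_sum]
    apply Ideal.Quotient.eq_zero_iff_mem.mpr
    exact Ideal.subset_span ⟨Sum.inl i, Sum.inr l, ⟨h1, h2⟩, rfl⟩
  have h2 := Lam_mulVec (fun i j => π (x i j)) (fun i j => π (y i j)) h1
  have h3 : (fun c => ∑ j, π (x (hi c) j) * π (y (hl c) j)) ≠ 0 := by
    intro h
    have h4 := congrFun h 0
    change ∑ j, π (x 0 j) * π (y 0 j) = 0 at h4
    simp only [← map_mul] at h4
    rw [← map_sum] at h4
    have h5 := LSS_le_ker (xp k) (yp k) xp_yp (Ideal.Quotient.eq_zero_iff_mem.mp h4)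
    rw [RingHom.mem_ker, map_sum] at h5
    simp only [x, y, map_mul, eval_X, Sum.elim_inl, Sum.elim_inr] at h5
    rw [xp_yp_zero] at h5
    exact one_ne_zero h5
  have h4 : (Lam (fun i j => π (x i j)) (fun i j => π (y i j))).det = 0 :=
    Matrix.exists_mulVec_eq_zero_iff.mp ⟨_, h3, h2⟩
  rw [← map_Lam π x y, ← RingHom.mapMatrix_apply, ← RingHom.map_det] at h4
  have h5 := LSS_le_ker (xz k) (yz k) (fun i l _ _ => xz_yz i l)
    (Ideal.Quotient.eq_zero_iff_mem.mp h4)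
  rw [RingHom.mem_ker, RingHom.map_det, RingHom.mapMatrix_apply, map_Lam] at h5
  simp only [x, y, eval_X, Sum.elim_inl, Sum.elim_inr] at h5
  exact det_ne k h5

theorem card_aux : ∀ A : Finset (Fin 6), A.Nonempty → A ≠ Finset.univ →
    A.card + 1 ≤ (A ∪ A.image (· + 1)).card := by decide

theorem card_aux' {A B : Finset (Fin 6)} (hA : A.Nonempty) (hB : B.Nonempty)
    (h : ∀ i ∈ A, ∀ l ∈ B, l ≠ i ∧ l ≠ i + 1) : A.card + B.card < 6 := by
  have h1 : Disjoint B (A ∪ A.image (· + 1)) := by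
    rw [Finset.disjoint_left]
    intro l hl hl'
    rw [Finset.mem_union, Finset.mem_image] at hl'
    rcases hl' with h2 | ⟨i, hi, rfl⟩
    · exact (h l h2 l hl).1 rfl
    · exact (h i hi _ hl).2 rfl
  have h2 : A ≠ Finset.univ := by
    rintro rfl
    obtain ⟨l, hl⟩ := hB
    exact (h l (Finset.mem_univ _) l hl).1 rfl
  have h3 := card_aux A hA h2
  have h4 := Finset.card_union_of_disjoint h1
  have h5 : (B ∪ (A ∪ A.image (· + 1))).card ≤ 6 := Finset.card_le_univ _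
  omega

theorem bipartite_aux {a b : ℕ} (ha : 1 ≤ a) (hb : 1 ≤ b) (u : Fin a → Fin 6 ⊕ Fin 6)
    (v : Fin b → Fin 6 ⊕ Fin 6) (hu : Function.Injective u) (hv : Function.Injective v)
    (h : ∀ i j, G₀.Adj (u i) (v j)) (x : Fin 6) (hx : u ⟨0, ha⟩ = Sum.inl x) : a + b < 6 := by
  have h1 : ∀ j, ∃ y, v j = Sum.inr y := by
    intro j
    have h2 := h ⟨0, ha⟩ j
    rw [hx] at h2
    rcases hj : v j with y | y
    · rw [hj] at h2
      exact absurd h2 id
    · exact ⟨y, rfl⟩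
  choose v' hv' using h1
  have h1 : ∀ i, ∃ y, u i = Sum.inl y := by
    intro i
    have h2 := h i ⟨0, hb⟩
    rw [hv'] at h2
    rcases hj : u i with y | y
    · exact ⟨y, rfl⟩
    · rw [hj] at h2
      exact absurd h2 id
  choose u' hu' using h1
  have hu2 : Function.Injective u' := by
    intro i j hij
    apply hu
    rw [hu', hu', hij]
  have hv2 : Function.Injective v' := by
    intro i j hij
    apply hv
    rw [hv', hv', hij]
  have h3 := card_aux' (A := Finset.univ.image u') (B := Finset.univ.image v')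
    ⟨u' ⟨0, ha⟩, Finset.mem_image_of_mem _ (Finset.mem_univ _)⟩
    ⟨v' ⟨0, hb⟩, Finset.mem_image_of_mem _ (Finset.mem_univ _)⟩ (by
      intro i hi l hl
      obtain ⟨i', -, rfl⟩ := Finset.mem_image.mp hi
      obtain ⟨l', -, rfl⟩ := Finset.mem_image.mp hl
      have h4 := h i' l'
      rw [hu', hv'] at h4
      exact h4)
  rw [Finset.card_image_of_injective _ hu2, Finset.card_image_of_injective _ hv2,
    Finset.card_univ, Finset.card_univ, Fintype.card_fin, Fintype.card_fin] at h3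
  exact h3

/-- `G₀` contains no `K_{a,b}` with `a, b ≥ 1` and `a + b ≥ 6` -/
theorem not_contained {a b : ℕ} (ha : 1 ≤ a) (hb : 1 ≤ b) (hab : 6 ≤ a + b) :
    ¬ (completeBipartiteGraph (Fin a) (Fin b)).IsContained G₀ := by
  rintro ⟨f⟩
  have hadj : ∀ i j, G₀.Adj (f (Sum.inl i)) (f (Sum.inr j)) := fun i j =>
    f.toHom.map_adj (by simp)
  have hu : Function.Injective fun i => f (Sum.inl i) := fun i j hij =>
    Sum.inl_injective (f.injective hij)
  have hv : Function.Injective fun i => f (Sum.inr i) := fun i j hij =>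
    Sum.inr_injective (f.injective hij)
  rcases hx : f (Sum.inl ⟨0, ha⟩) with x | x
  · have := bipartite_aux ha hb _ _ hu hv hadj x hx
    omega
  · have h2 := hadj ⟨0, ha⟩ ⟨0, hb⟩
    rcases hy : f (Sum.inr ⟨0, hb⟩) with y | y
    · have := bipartite_aux hb ha _ _ hv hu (fun i j => (hadj j i).symm) y hy
      omega
    · rw [hx, hy] at h2
      exact absurd h2 id

theorem G₀_le : G₀ ≤ completeBipartiteGraph (Fin 6) (Fin 6) := by
  rintro (i | i) (l | l) h
  · exact absurd h id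
  · simp
  · simp
  · exact absurd h id

/-- There is a subgraph `G` of `K_{6,6}` which contains no `K_{a,b}` with `a, b ≥ 1` and
`a + b ≥ 6`, such that for every field `k` the Lovász–Saks–Schrijver ideal of `G` in dimension
`6 - 1 = 5` over `k` is not prime. -/
theorem result : ∃ G : SimpleGraph (Fin 6 ⊕ Fin 6), G ≤ completeBipartiteGraph (Fin 6) (Fin 6) ∧
    (∀ a b : ℕ, 1 ≤ a → 1 ≤ b → 6 ≤ a + b →
      ¬ (completeBipartiteGraph (Fin a) (Fin b)).IsContained G) ∧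
    ∀ (k : Type u) [Field k], ¬ (LSS k G (6 - 1)).IsPrime :=
  ⟨G₀, G₀_le, fun _ _ ha hb hab => not_contained ha hb hab, fun k _ => not_prime k⟩

end Pool.Agent.Results.MP_024e1e_ag.HamiltonianComplement
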